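import Mathlib

set_option autoImplicit false

namespace Pool.Agent.H.MP_f322fd_al

open Polynomial IsLocalRing QuadraticAlgebra

noncomputable def m : Ideal ℤ[X] := RingHom.ker (eval₂RingHom (Int.castRingHom (ZMod 2)) 0)

instance : m.IsPrime := RingHom.ker_isPrime _

theorem mem_m (f : ℤ[X]) : f ∈ m ↔ (2 : ℤ) ∣ f.coeff 0 := by
  rw [m, RingHom.mem_ker, coe_eval₂RingHom, eval₂_at_zero]
  exact ZMod.intCast_zmod_eq_zero_iff_dvd _ 2

abbrev A := Localization.AtPrime m

noncomputable def x : A := algebraMap ℤ[X] A X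

theorem inj : Function.Injective (algebraMap ℤ[X] A) :=
  IsLocalization.injective A m.primeCompl_le_nonZeroDivisors

instance : CharZero A := charZero_of_injective_algebraMap inj

theorem maxA : maximalIdeal A = Ideal.span {2, x} := by
  rw [← Localization.AtPrime.map_eq_maximalIdeal]
  apply le_antisymm
  · rw [Ideal.map_le_iff_le_comap]
    intro f hf
    obtain ⟨k, hk⟩ := (mem_m f).1 hf
    refine Ideal.mem_span_pair.2 ⟨k, algebraMap ℤ[X] A f.divX, ?_⟩
    conv_rhs => rw [← divX_mul_X_add f, hk]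
    simp [x, map_ofNat]
    ring
  · rw [Ideal.span_le]
    rintro _ (rfl | rfl)
    · have := Ideal.mem_map_of_mem (algebraMap ℤ[X] A) ((mem_m 2).2 (by simp))
      rwa [map_ofNat] at this
    · exact Ideal.mem_map_of_mem _ ((mem_m X).2 (by simp))

noncomputable def ev : ℤ[X] →+* ℝ := eval₂RingHom (Int.castRingHom ℝ) (-2 * √2)

theorem s2 : √2 * √2 = (2 : ℝ) := Real.mul_self_sqrt (by norm_num)

theorem ev0 (f : ℤ[X]) : ∃ u v : ℤ, ev f = u + 2 * v * √2 := by
  induction f using Polynomial.induction_on with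
  | C a => exact ⟨a, 0, by simp [ev]⟩
  | add p q hp hq =>
    obtain ⟨u, v, h⟩ := hp
    obtain ⟨u', v', h'⟩ := hq
    exact ⟨u + u', v + v', by rw [map_add, h, h']; push_cast; ring⟩
  | monomial n a h =>
    obtain ⟨u, v, h⟩ := h
    refine ⟨-8 * v, -u, ?_⟩
    rw [pow_succ, ← mul_assoc, map_mul, h]
    simp only [ev, coe_eval₂RingHom, eval₂_X]
    push_cast
    linear_combination (-4 * v) * s2

theorem ev1 (f : ℤ[X]) (hf : f ∉ m) : ∃ u v : ℤ, ¬ (2 : ℤ) ∣ u ∧ ev f = u + 2 * v * √2 := by
  obtain ⟨u, v, h⟩ := ev0 f.divX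
  refine ⟨f.coeff 0 - 8 * v, -u, fun h2 => hf ((mem_m f).2 (by omega)), ?_⟩
  conv_lhs => rw [← divX_mul_X_add f, map_add, map_mul, h]
  simp only [ev, coe_eval₂RingHom, eval₂_X, eval₂_C]
  rw [eq_intCast]
  push_cast
  linear_combination (-4 * v) * s2

theorem indep {u v : ℤ} (h : (u : ℝ) + v * √2 = 0) : u = 0 ∧ v = 0 := by
  by_cases hv : v = 0
  · refine ⟨?_, hv⟩
    rw [hv] at h
    simpa using h
  · exfalso
    have hv' : (v : ℝ) ≠ 0 := by exact_mod_cast hv
    refine irrational_sqrt_two ⟨-u / v, ?_⟩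
    push_cast
    field_simp
    linarith

noncomputable def g : A →+* ℝ := IsLocalization.lift (M := m.primeCompl) (g := ev) fun f => by
  obtain ⟨u, v, h1, h2⟩ := ev1 f.1 f.2
  refine IsUnit.mk0 _ fun h => h1 ?_
  rw [h2] at h
  have := (indep (u := u) (v := 2 * v) (by push_cast; exact h)).1
  omega

theorem g_x : g x = -2 * √2 := by simp [g, x, ev]

theorem g_frac (a : A) : ∃ u v u' v' : ℤ, ¬ (2 : ℤ) ∣ u ∧
    g a * (u + 2 * v * √2) = u' + 2 * v' * √2 := by
  obtain ⟨⟨f, h⟩, e⟩ := IsLocalization.surj m.primeCompl a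
  obtain ⟨u, v, h1, h2⟩ := ev1 h.1 h.2
  obtain ⟨u', v', h3⟩ := ev0 f
  refine ⟨u, v, u', v', h1, ?_⟩
  have := congrArg g e
  rw [map_mul, g, IsLocalization.lift_eq, IsLocalization.lift_eq, h2, h3] at this
  exact this

noncomputable def p : Ideal A := RingHom.ker g

instance : p.IsPrime := RingHom.ker_isPrime _

theorem d_mem : x * x - 8 ∈ p := by
  rw [p, RingHom.mem_ker, map_sub, map_mul, g_x, map_ofNat]
  linear_combination 4 * s2

theorem d_ne : x * x - 8 ≠ 0 := by
  intro h
  have : (X * X - 8 : ℤ[X]) = 0 := inj (by rw [map_sub, map_mul, map_ofNat, map_zero]; exact h)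
  have := congrArg (eval 0) this
  simp at this

theorem charP : CharZero (A ⧸ p) := (RingHom.kerLift g).charZero

theorem not_reg : ¬ IsRegularLocalRing (A ⧸ p) := by
  intro h
  have d1 : ringKrullDim (A ⧸ p) + 1 ≤ ringKrullDim A :=
    ringKrullDim_succ_le_of_surjective _ Ideal.Quotient.mk_surjective
      (mem_nonZeroDivisors_of_ne_zero d_ne) (Ideal.Quotient.eq_zero_iff_mem.2 d_mem)
  have d2 : (maximalIdeal A).spanFinrank ≤ 2 := by
    rw [maxA]
    exact (Submodule.spanFinrank_span_le_ncard_of_finite (Set.toFinite _)).trans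
      ((Set.ncard_insert_le _ _).trans (by simp))
  rw [← (IsRegularLocalRing.iff_finrank_cotangentSpace _).1 h,
    ← IsRegularLocalRing.spanFinrank_maximalIdeal] at d1
  have d3 : Module.finrank (ResidueField (A ⧸ p)) (CotangentSpace (A ⧸ p)) ≤ 1 := by
    norm_cast at d1
    omega
  have hv : ValuationRing (A ⧸ p) :=
    ((tfae_of_isNoetherianRing_of_isLocalRing_of_isDomain (A ⧸ p)).out 5 1).1 d3
  have := hv.toPreValuationRing
  rcases ValuationRing.dvd_total (Ideal.Quotient.mk p 2) (Ideal.Quotient.mk p x) with h | h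
  · obtain ⟨c, hc⟩ := h
    obtain ⟨c, rfl⟩ := Ideal.Quotient.mk_surjective c
    have := RingHom.mem_ker.1 (Ideal.Quotient.eq.1 (hc.trans (map_mul _ _ _).symm))
    rw [map_sub, map_mul, g_x, map_ofNat] at this
    obtain ⟨u, v, u', v', h1, h2⟩ := g_frac c
    have := indep (u := u' + 4 * v) (v := 2 * v' + u) (by
      push_cast
      linear_combination -h2 - (u + 2 * v * √2) / 2 * this - 2 * v * s2)
    omega
  · obtain ⟨c, hc⟩ := h
    obtain ⟨c, rfl⟩ := Ideal.Quotient.mk_surjective c
    have := RingHom.mem_ker.1 (Ideal.Quotient.eq.1 (hc.trans (map_mul _ _ _).symm))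
    rw [map_sub, map_mul, g_x, map_ofNat] at this
    obtain ⟨u, v, u', v', h1, h2⟩ := g_frac c
    have := indep (u := u + 4 * v') (v := 2 * v + u') (by
      push_cast
      linear_combination -√2 * h2 + (u + 2 * v * √2) / 2 * this - 2 * v' * s2)
    omega

abbrev B := QuadraticAlgebra A (-2) (-x)

theorem unitB (b : B) : IsUnit b ↔ IsUnit b.re := by
  rw [isUnit_iff_norm_isUnit, ← isUnit_mul_self_iff (a := b.re), ← not_iff_not, ← mem_nonunits_iff,
    ← mem_nonunits_iff, ← mem_maximalIdeal, ← mem_maximalIdeal, norm_def]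
  have : (b.im * b.im) * 2 + (-b.re * b.im) * x ∈ maximalIdeal A := by
    rw [maxA]; exact Ideal.mem_span_pair.2 ⟨_, _, rfl⟩
  rw [← Ideal.add_mem_iff_left _ this (a := b.re * b.re)]
  apply iff_of_eq
  congr 1
  ring

instance : IsLocalRing B := .of_isUnit_or_isUnit_one_sub_self fun b => by
  rw [unitB, unitB]
  exact isUnit_or_isUnit_one_sub_self b.re

instance : IsNoetherianRing B := IsNoetherianRing.of_finite A B

noncomputable def z : B := ⟨x, 2⟩

theorem maxB : maximalIdeal B = Ideal.span {z, ω} := by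
  apply le_antisymm
  · intro b hb
    rw [mem_maximalIdeal, mem_nonunits_iff, unitB, ← mem_nonunits_iff, ← mem_maximalIdeal, maxA]
      at hb
    obtain ⟨c, d, h⟩ := Ideal.mem_span_pair.1 hb
    refine Ideal.mem_span_pair.2 ⟨⟨d, 0⟩, ⟨b.im - 2 * d - c * x, -c⟩, ?_⟩
    ext
    · simp [z, ← h]; ring
    · simp [z]; ring
  · rw [Ideal.span_le]
    rintro _ (rfl | rfl)
    · rw [SetLike.mem_coe, mem_maximalIdeal, mem_nonunits_iff, unitB, ← mem_nonunits_iff,
        ← mem_maximalIdeal, maxA]
      exact Ideal.subset_span (Or.inr rfl)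
    · rw [SetLike.mem_coe, mem_maximalIdeal, mem_nonunits_iff, unitB]
      simp

noncomputable def G : B →+* ℝ where
  toFun b := g b.re + g b.im * √2
  map_one' := by simp
  map_zero' := by simp
  map_add' a b := by simp; ring
  map_mul' a b := by
    simp only [re_mul, im_mul, map_add, map_mul, map_neg, g_x, map_ofNat]
    linear_combination (g a.im * g b.im) * s2

theorem G_apply (b : B) : G b = g b.re + g b.im * √2 := rfl

noncomputable def P : Ideal B := RingHom.ker G

instance : P.IsPrime := RingHom.ker_isPrime _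

theorem rad : (p.map (algebraMap A B)).radical = P := by
  apply le_antisymm
  · rw [Ideal.IsPrime.radical_le_iff inferInstance, Ideal.map_le_iff_le_comap]
    intro a ha
    rw [Ideal.mem_comap, P, RingHom.mem_ker, G_apply]
    simpa using RingHom.mem_ker.1 ha
  · intro b hb
    rw [P, RingHom.mem_ker, G_apply] at hb
    have h1 : trace b ∈ p := by
      rw [p, RingHom.mem_ker, trace_def]
      simp only [map_add, map_mul, map_neg, g_x, map_ofNat]
      linear_combination 2 * hb
    have h2 : QuadraticAlgebra.norm b ∈ p := by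
      rw [p, RingHom.mem_ker, norm_def]
      simp only [map_add, map_sub, map_mul, map_neg, g_x, map_ofNat]
      linear_combination (g b.re + g b.im * √2) * hb - (g b.im * g b.im) * s2
    refine ⟨2, ?_⟩
    rw [sq_eq_trace_smul_sub_norm, Algebra.smul_def]
    exact sub_mem (Ideal.mul_mem_right _ _ (Ideal.mem_map_of_mem _ h1)) (Ideal.mem_map_of_mem _ h2)

theorem z_mem : z ∈ P := by
  rw [P, RingHom.mem_ker, G_apply]
  simp only [z, g_x, map_ofNat]
  ring

instance : IsLocalRing (B ⧸ P) := .of_surjective' _ Ideal.Quotient.mk_surjective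

theorem maxQ : maximalIdeal (B ⧸ P) = Ideal.span {Ideal.Quotient.mk P ω} := by
  rw [← map_maximalIdeal_of_surjective _ Ideal.Quotient.mk_surjective, maxB, Ideal.map_span,
    Set.image_pair, Ideal.Quotient.eq_zero_iff_mem.2 z_mem, Ideal.span_insert_zero]

instance : IsPrincipalIdealRing (B ⧸ P) :=
  ((tfae_of_isNoetherianRing_of_isLocalRing_of_isDomain (B ⧸ P)).out 4 0).1
    (show (maximalIdeal (B ⧸ P)).IsPrincipal from ⟨_, maxQ⟩)

instance : IsRegularLocalRing B := by
  apply IsRegularLocalRing.of_spanFinrank_maximalIdeal_le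
  have d0 : ringKrullDim (B ⧸ P) = 1 := IsPrincipalIdealRing.ringKrullDim_eq_one (B ⧸ P)
      fun h => by
    replace h := isField_iff_maximalIdeal_eq.1 h
    rw [maxQ, Ideal.span_singleton_eq_bot,
      Ideal.Quotient.eq_zero_iff_mem, P, RingHom.mem_ker, G_apply] at h
    simp at h
  have d1 : ringKrullDim (B ⧸ P) + 1 ≤ ringKrullDim B :=
    ringKrullDim_succ_le_of_surjective _ Ideal.Quotient.mk_surjective
      (norm_mem_nonZeroDivisors_iff.1 (mem_nonZeroDivisors_of_ne_zero fun h => d_ne (by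
        rw [norm_def] at h
        simp only [z] at h
        linear_combination -h))) (Ideal.Quotient.eq_zero_iff_mem.2 z_mem)
  have d2 : (maximalIdeal B).spanFinrank ≤ 2 := by
    rw [maxB]
    exact (Submodule.spanFinrank_span_le_ncard_of_finite (Set.toFinite _)).trans
      ((Set.ncard_insert_le _ _).trans (by simp))
  rw [d0] at d1
  refine le_trans ?_ d1
  exact_mod_cast d2

theorem regQ : IsRegularLocalRing (B ⧸ (p.map (algebraMap A B)).radical) := by
  rw [rad]; infer_instance

end Pool.Agent.H.MP_f322fd_al
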